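import Mathlib
import Pool.Agent.Q236.QuadArea

set_option autoImplicit false

namespace Pool.Agent.Results.MP_ee40c7_co.FourPointHulls

open MeasureTheory Set Pool.Agent.Q236.QuadArea
open Pool.Agent.Helper484.Crit (cr)

/-- the area of the convex hull of a finite set of points of the plane -/
noncomputable def hullArea (A : Finset (ℝ × ℝ)) : ℝ :=
  volume.real (convexHull ℝ (A : Set (ℝ × ℝ)))

/-- `T_k(S)`: the largest area of the convex hull of a `k`-element subset of `S`. -/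
noncomputable def maxArea (k : ℕ) (S : Finset (ℝ × ℝ)) : ℝ :=
  sSup {x : ℝ | ∃ A ⊆ S, A.card = k ∧ hullArea A = x}

/-- `t_k(S)`: the smallest positive area of the convex hull of a `k`-element subset of `S`. -/
noncomputable def minPosArea (k : ℕ) (S : Finset (ℝ × ℝ)) : ℝ :=
  sInf {x : ℝ | 0 < x ∧ ∃ A ⊆ S, A.card = k ∧ hullArea A = x}

/-- `f(k,n)`: the infimum of `T_k(S)/t_k(S)` over all `n`-point sets `S`, not all collinear. -/
noncomputable def f (k n : ℕ) : ℝ :=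
  sInf {x : ℝ | ∃ S : Finset (ℝ × ℝ), S.card = n ∧ ¬ Collinear ℝ (S : Set (ℝ × ℝ)) ∧
    maxArea k S / minPosArea k S = x}

/-- The set `S_n` of the points `(0,j)`, `0 ≤ j ≤ [(n-1)/2]`, and `(1,j)`, `0 ≤ j ≤ [(n-2)/2]`. -/
noncomputable def twoLines (n : ℕ) : Finset (ℝ × ℝ) :=
  (Finset.range ((n - 1) / 2 + 1)).image (fun j : ℕ => ((0 : ℝ), (j : ℝ))) ∪
  (Finset.range ((n - 2) / 2 + 1)).image (fun j : ℕ => ((1 : ℝ), (j : ℝ)))

/-! ### general facts -/

theorem areas_finite (k : ℕ) (S : Finset (ℝ × ℝ)) :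
    {x : ℝ | ∃ A ⊆ S, A.card = k ∧ hullArea A = x}.Finite := by
  refine ((S.powerset.finite_toSet).image hullArea).subset ?_
  rintro x ⟨A, hA, -, rfl⟩
  exact ⟨A, by simpa using hA, rfl⟩

theorem posAreas_finite (k : ℕ) (S : Finset (ℝ × ℝ)) :
    {x : ℝ | 0 < x ∧ ∃ A ⊆ S, A.card = k ∧ hullArea A = x}.Finite :=
  (areas_finite k S).subset fun _ hx => hx.2

theorem hull_finite (A : Finset (ℝ × ℝ)) : volume (convexHull ℝ (A : Set (ℝ × ℝ))) ≠ ⊤ :=
  ((Set.Finite.isCompact_convexHull ℝ (Finset.finite_toSet A)).measure_lt_top).ne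

theorem hullArea_le {A : Finset (ℝ × ℝ)} {M : ℝ} (hM0 : 0 ≤ M) (hc : A.card = 4)
    (hM : CrBound M (A : Set (ℝ × ℝ))) : hullArea A ≤ M / 2 := by
  obtain e := Finset.equivFinOfCardEq hc
  have hr : range (fun i : Fin 4 => ((e.symm i : A) : ℝ × ℝ)) = (A : Set (ℝ × ℝ)) := by
    ext x
    constructor
    · rintro ⟨i, rfl⟩
      exact (e.symm i).2
    · intro hx
      exact ⟨e ⟨x, hx⟩, by simp⟩
  have := quad_le (M := M) (fun i : Fin 4 => ((e.symm i : A) : ℝ × ℝ)) (by rw [hr]; exact hM)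
  rw [hr] at this
  unfold hullArea Measure.real
  exact ENNReal.toReal_le_of_le_ofReal (by linarith) this

theorem le_hullArea {A : Finset (ℝ × ℝ)} {p q r s : ℝ × ℝ} (hp : p ∈ A) (hq : q ∈ A)
    (hr : r ∈ A) (hs : s ∈ A) : |cr (q - p) (r - s)| / 2 ≤ hullArea A := by
  have := quad_ge (A := (A : Set (ℝ × ℝ))) hp hq hr hs
  exact (ENNReal.ofReal_le_iff_le_toReal (hull_finite A)).1 this

/-! ### lattice points -/

/-- integer points as points of the plane -/
def toR (p : ℤ × ℤ) : ℝ × ℝ := ((p.1 : ℝ), (p.2 : ℝ))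

/-- cross product of integer vectors -/
def icr (p q : ℤ × ℤ) : ℤ := p.1 * q.2 - p.2 * q.1

theorem cr_toR (p q r s : ℤ × ℤ) : cr (toR q - toR p) (toR r - toR s) = (icr (q - p) (r - s) : ℝ) := by
  simp [cr, toR, icr]

theorem int_quad (p q r s : ℤ × ℤ) (hpq : p ≠ q) (hpr : p ≠ r) (hps : p ≠ s) (hqr : q ≠ r)
    (hqs : q ≠ s) (hrs : r ≠ s) :
    (icr (p - s) (q - s) = 0 ∧ icr (q - s) (r - s) = 0 ∧ icr (r - s) (p - s) = 0) ∨
    ∃ x ∈ ({p, q, r, s} : Set (ℤ × ℤ)), ∃ y ∈ ({p, q, r, s} : Set (ℤ × ℤ)),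
      ∃ z ∈ ({p, q, r, s} : Set (ℤ × ℤ)), ∃ w ∈ ({p, q, r, s} : Set (ℤ × ℤ)),
      2 ≤ |icr (x - y) (z - w)| := by
  by_contra hcon
  push Not at hcon
  obtain ⟨h0, hcon⟩ := hcon
  have hA := hcon p (by simp) s (by simp) q (by simp) s (by simp)
  have hB := hcon q (by simp) s (by simp) r (by simp) s (by simp)
  have hC := hcon r (by simp) s (by simp) p (by simp) s (by simp)
  have hAB := hcon q (by simp) s (by simp) r (by simp) p (by simp)
  have hBC := hcon r (by simp) s (by simp) p (by simp) q (by simp)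
  have hCA := hcon p (by simp) s (by simp) q (by simp) r (by simp)
  have hABC := hcon q (by simp) p (by simp) r (by simp) p (by simp)
  have eAB : icr (q - s) (r - p) = icr (p - s) (q - s) + icr (q - s) (r - s) := by
    simp only [icr, Prod.fst_sub, Prod.snd_sub]; ring
  have eBC : icr (r - s) (p - q) = icr (q - s) (r - s) + icr (r - s) (p - s) := by
    simp only [icr, Prod.fst_sub, Prod.snd_sub]; ring
  have eCA : icr (p - s) (q - r) = icr (r - s) (p - s) + icr (p - s) (q - s) := by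
    simp only [icr, Prod.fst_sub, Prod.snd_sub]; ring
  have eABC : icr (q - p) (r - p) =
      icr (p - s) (q - s) + icr (q - s) (r - s) + icr (r - s) (p - s) := by
    simp only [icr, Prod.fst_sub, Prod.snd_sub]; ring
  rw [eAB] at hAB
  rw [eBC] at hBC
  rw [eCA] at hCA
  rw [eABC] at hABC
  have i1 : icr (p - s) (q - s) * (r.1 - s.1) + icr (q - s) (r - s) * (p.1 - s.1) +
      icr (r - s) (p - s) * (q.1 - s.1) = 0 := by
    simp only [icr, Prod.fst_sub, Prod.snd_sub]; ring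
  have i2 : icr (p - s) (q - s) * (r.2 - s.2) + icr (q - s) (r - s) * (p.2 - s.2) +
      icr (r - s) (p - s) * (q.2 - s.2) = 0 := by
    simp only [icr, Prod.fst_sub, Prod.snd_sub]; ring
  generalize icr (p - s) (q - s) = A at *
  generalize icr (q - s) (r - s) = B at *
  generalize icr (r - s) (p - s) = C at *
  obtain ⟨p1, p2⟩ := p
  obtain ⟨q1, q2⟩ := q
  obtain ⟨r1, r2⟩ := r
  obtain ⟨s1, s2⟩ := s
  simp only [ne_eq, Prod.mk.injEq] at hpq hpr hps hqr hqs hrs i1 i2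
  rw [abs_lt] at hA hB hC hAB hBC hCA hABC
  obtain ⟨A1, A2⟩ := hA
  obtain ⟨B1, B2⟩ := hB
  obtain ⟨C1, C2⟩ := hC
  have hA' : A = -1 ∨ A = 0 ∨ A = 1 := by omega
  have hB' : B = -1 ∨ B = 0 ∨ B = 1 := by omega
  have hC' : C = -1 ∨ C = 0 ∨ C = 1 := by omega
  rcases hA' with rfl | rfl | rfl <;> rcases hB' with rfl | rfl | rfl <;>
    rcases hC' with rfl | rfl | rfl <;> first | omega | (simp at h0)

theorem lattice_area {A : Finset (ℝ × ℝ)} (hc : A.card = 4) (hint : ∀ x ∈ A, ∃ p, x = toR p)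
    (hpos : 0 < hullArea A) : 1 ≤ hullArea A := by
  obtain e := Finset.equivFinOfCardEq hc
  have hex : ∀ i : Fin 4, ∃ p, ((e.symm i : A) : ℝ × ℝ) = toR p := fun i => hint _ (e.symm i).2
  choose v hv using hex
  have hinj : ∀ i j : Fin 4, i ≠ j → v i ≠ v j := by
    intro i j hij h
    apply hij
    apply e.symm.injective
    apply Subtype.ext
    rw [hv, hv, h]
  have hmem : ∀ i, toR (v i) ∈ A := fun i => by rw [← hv]; exact (e.symm i).2
  have hA : (A : Set (ℝ × ℝ)) = {toR (v 0), toR (v 1), toR (v 2), toR (v 3)} := by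
    ext x
    simp only [mem_insert_iff, mem_singleton_iff, Finset.mem_coe]
    constructor
    · intro hx
      have h1 : x = ((e.symm (e ⟨x, hx⟩) : A) : ℝ × ℝ) := by simp
      rw [h1, hv]
      generalize e ⟨x, hx⟩ = i
      fin_cases i <;> simp
    · rintro (rfl | rfl | rfl | rfl) <;> exact hmem _
  rcases int_quad (v 0) (v 1) (v 2) (v 3) (hinj _ _ (by decide)) (hinj _ _ (by decide))
    (hinj _ _ (by decide)) (hinj _ _ (by decide)) (hinj _ _ (by decide)) (hinj _ _ (by decide))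
    with ⟨h1, h2, h3⟩ | ⟨x, hx, y, hy, z, hz, w, hw, h⟩
  · exfalso
    have hz : hullArea A ≤ 0 / 2 := by
      apply hullArea_le le_rfl hc
      have hall : ∀ i j k l : Fin 4, icr (v i - v j) (v k - v l) = 0 := by
        have key : ∀ i j : Fin 4, icr (v i - v 3) (v j - v 3) = 0 := by
          intro i j
          have h4 : ∀ a b : ℤ × ℤ, icr a b = - icr b a := by
            intro a b; simp only [icr]; ring
          have h5 : ∀ a : ℤ × ℤ, icr a a = 0 := by
            intro a; simp only [icr]; ring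
          have h6 : ∀ a : ℤ × ℤ, icr a 0 = 0 := by
            intro a; simp [icr]
          have h7 : ∀ a : ℤ × ℤ, icr 0 a = 0 := by
            intro a; simp [icr]
          have g1 : icr (v 1 - v 3) (v 0 - v 3) = 0 := by rw [h4, h1]; rfl
          have g2 : icr (v 2 - v 3) (v 1 - v 3) = 0 := by rw [h4, h2]; rfl
          have g3 : icr (v 0 - v 3) (v 2 - v 3) = 0 := by rw [h4, h3]; rfl
          fin_cases i <;> fin_cases j <;> simp [h1, h2, h3, g1, g2, g3, h5, h6, h7]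
        intro i j k l
        have : icr (v i - v j) (v k - v l) = icr (v i - v 3) (v k - v 3) -
            icr (v i - v 3) (v l - v 3) - icr (v j - v 3) (v k - v 3) +
            icr (v j - v 3) (v l - v 3) := by
          simp only [icr, Prod.fst_sub, Prod.snd_sub]; ring
        rw [this, key, key, key, key]; ring
      intro x hx y hy z hz w hw
      have hex : ∀ x ∈ (A : Set (ℝ × ℝ)), ∃ i, x = toR (v i) := by
        intro x hx
        rw [hA] at hx
        simp only [mem_insert_iff, mem_singleton_iff] at hx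
        rcases hx with rfl | rfl | rfl | rfl
        · exact ⟨0, rfl⟩
        · exact ⟨1, rfl⟩
        · exact ⟨2, rfl⟩
        · exact ⟨3, rfl⟩
      obtain ⟨i, rfl⟩ := hex x hx
      obtain ⟨j, rfl⟩ := hex y hy
      obtain ⟨k, rfl⟩ := hex z hz
      obtain ⟨l, rfl⟩ := hex w hw
      rw [cr_toR, hall]
      simp
    linarith
  · have hex : ∀ x ∈ ({v 0, v 1, v 2, v 3} : Set (ℤ × ℤ)), toR x ∈ A := by
      intro x hx
      simp only [mem_insert_iff, mem_singleton_iff] at hx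
      rcases hx with rfl | rfl | rfl | rfl <;> exact hmem _
    have h1 := le_hullArea (hex y hy) (hex x hx) (hex z hz) (hex w hw)
    rw [cr_toR] at h1
    have h2 : (2 : ℝ) ≤ |(icr (x - y) (z - w) : ℝ)| := by exact_mod_cast h
    linarith

/-! ### the hexagon -/

/-- The lattice points of an affinely regular hexagon, on three parallel lines: `a + 1`,
`2 a + 1` and `a + 1` points. -/
noncomputable def hexagon (a : ℕ) : Finset (ℝ × ℝ) :=
  ((Finset.range (a + 1)).image (fun j : ℕ => ((-1 : ℝ), (j : ℝ))) ∪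
  (Finset.range (2 * a + 1)).image (fun j : ℕ => ((0 : ℝ), (j : ℝ)))) ∪
  (Finset.range (a + 1)).image (fun j : ℕ => ((1 : ℝ), (a : ℝ) + (j : ℝ)))

theorem hexagon_card (a : ℕ) : (hexagon a).card = 4 * a + 3 := by
  unfold hexagon
  rw [Finset.card_union_of_disjoint, Finset.card_union_of_disjoint,
    Finset.card_image_of_injective, Finset.card_image_of_injective,
    Finset.card_image_of_injective]
  · simp only [Finset.card_range]; ring
  · intro i j h
    simpa using h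
  · intro i j h
    simpa using h
  · intro i j h
    simpa using h
  · rw [Finset.disjoint_left]
    intro x hx hx'
    simp only [Finset.mem_image] at hx hx'
    obtain ⟨i, -, rfl⟩ := hx
    obtain ⟨j, -, h⟩ := hx'
    simp at h
  · rw [Finset.disjoint_left]
    intro x hx hx'
    simp only [Finset.mem_image, Finset.mem_union] at hx hx'
    obtain ⟨j, -, rfl⟩ := hx'
    rcases hx with ⟨i, -, h⟩ | ⟨i, -, h⟩
    · have := congrArg Prod.fst h
      norm_num at this
    · have := congrArg Prod.fst h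
      norm_num at this

theorem hexagon_mem {a : ℕ} {x : ℝ × ℝ} (hx : x ∈ hexagon a) :
    (∃ p, x = toR p) ∧ |x.1| ≤ 1 ∧ 0 ≤ x.2 ∧ x.2 ≤ 2 * a ∧ 0 ≤ x.2 - a * x.1 ∧
      x.2 - a * x.1 ≤ 2 * a := by
  unfold hexagon at hx
  simp only [Finset.mem_union, Finset.mem_image, Finset.mem_range] at hx
  have ha : (0 : ℝ) ≤ a := by positivity
  rcases hx with (⟨j, hj, rfl⟩ | ⟨j, hj, rfl⟩) | ⟨j, hj, rfl⟩
  · have h1 : (j : ℝ) ≤ a := by exact_mod_cast Nat.lt_succ_iff.1 hj
    have h0 : (0 : ℝ) ≤ j := by positivity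
    refine ⟨⟨(-1, j), by simp [toR]⟩, by simp, ?_, ?_, ?_, ?_⟩ <;> simp only <;> linarith
  · have h1 : (j : ℝ) ≤ 2 * a := by exact_mod_cast Nat.lt_succ_iff.1 hj
    have h0 : (0 : ℝ) ≤ j := by positivity
    refine ⟨⟨(0, j), by simp [toR]⟩, by simp, ?_, ?_, ?_, ?_⟩ <;> simp only <;> linarith
  · have h1 : (j : ℝ) ≤ a := by exact_mod_cast Nat.lt_succ_iff.1 hj
    have h0 : (0 : ℝ) ≤ j := by positivity
    refine ⟨⟨(1, a + j), by simp [toR]⟩, by simp, ?_, ?_, ?_, ?_⟩ <;> simp only <;> linarith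

theorem hex_cross (X Y X' Y' m : ℝ) (h1 : |X| ≤ m) (h2 : |Y| ≤ m) (h3 : |X - Y| ≤ m)
    (h1' : |X'| ≤ m) (h2' : |Y'| ≤ m) (h3' : |X' - Y'| ≤ m) : |X * Y' - Y * X'| ≤ m ^ 2 := by
  rw [abs_le] at *
  rcases le_total 0 X with a1 | a1 <;> rcases le_total 0 Y with a2 | a2 <;>
    rcases le_total 0 X' with a3 | a3 <;> rcases le_total 0 Y' with a4 | a4 <;>
    constructor <;> nlinarith

theorem hexagon_bound {a : ℕ} (ha : 1 ≤ a) {A : Finset (ℝ × ℝ)} (hA : A ⊆ hexagon a) :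
    CrBound (4 * a) (A : Set (ℝ × ℝ)) := by
  intro x hx y hy z hz w hw
  obtain ⟨-, x1, x2, x3, x4, x5⟩ := hexagon_mem (hA hx)
  obtain ⟨-, y1, y2, y3, y4, y5⟩ := hexagon_mem (hA hy)
  obtain ⟨-, z1, z2, z3, z4, z5⟩ := hexagon_mem (hA hz)
  obtain ⟨-, w1, w2, w3, w4, w5⟩ := hexagon_mem (hA hw)
  have ha' : (0 : ℝ) < a := by exact_mod_cast ha
  rw [abs_le] at x1 y1 z1 w1
  have key := hex_cross (a * (x.1 - y.1)) (x.2 - y.2) (a * (z.1 - w.1)) (z.2 - w.2) (2 * a)
    (by rw [abs_le]; constructor <;> nlinarith) (by rw [abs_le]; constructor <;> linarith)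
    (by rw [abs_le]; constructor <;> nlinarith)
    (by rw [abs_le]; constructor <;> nlinarith) (by rw [abs_le]; constructor <;> linarith)
    (by rw [abs_le]; constructor <;> nlinarith)
  have e : a * (x.1 - y.1) * (z.2 - w.2) - (x.2 - y.2) * (a * (z.1 - w.1)) =
      a * cr (x - y) (z - w) := by
    simp only [cr, Prod.fst_sub, Prod.snd_sub]; ring
  rw [e, abs_mul, abs_of_pos ha'] at key
  nlinarith

theorem hexagon_ratio {a : ℕ} (ha : 1 ≤ a) :
    maxArea 4 (hexagon a) / minPosArea 4 (hexagon a) ≤ 2 * a := by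
  have ha' : (0 : ℝ) < a := by exact_mod_cast ha
  have hcard := hexagon_card a
  have hmax : maxArea 4 (hexagon a) ≤ 2 * a := by
    apply csSup_le
    · obtain ⟨A, hA, hAc⟩ := Finset.exists_subset_card_eq (s := hexagon a) (n := 4) (by omega)
      exact ⟨_, A, hA, hAc, rfl⟩
    · rintro x ⟨A, hA, hAc, rfl⟩
      have := hullArea_le (by positivity) hAc (hexagon_bound ha hA)
      linarith
  have hmax0 : 0 ≤ maxArea 4 (hexagon a) := by
    apply Real.sSup_nonneg
    rintro x ⟨A, hA, hAc, rfl⟩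
    exact ENNReal.toReal_nonneg
  -- a positive area
  have hne : {x : ℝ | 0 < x ∧ ∃ A ⊆ hexagon a, A.card = 4 ∧ hullArea A = x}.Nonempty := by
    classical
    have hm1 : ((-1 : ℝ), (0 : ℝ)) ∈ hexagon a := by
      unfold hexagon
      simp only [Finset.mem_union, Finset.mem_image, Finset.mem_range]
      exact Or.inl (Or.inl ⟨0, by omega, by simp⟩)
    have hm2 : ((0 : ℝ), (0 : ℝ)) ∈ hexagon a := by
      unfold hexagon
      simp only [Finset.mem_union, Finset.mem_image, Finset.mem_range]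
      exact Or.inl (Or.inr ⟨0, by omega, by simp⟩)
    have hm3 : ((0 : ℝ), (1 : ℝ)) ∈ hexagon a := by
      unfold hexagon
      simp only [Finset.mem_union, Finset.mem_image, Finset.mem_range]
      exact Or.inl (Or.inr ⟨1, by omega, by simp⟩)
    obtain ⟨A, hsub, hA, hAc⟩ := Finset.exists_subsuperset_card_eq
      (s := {((-1 : ℝ), (0 : ℝ)), ((0 : ℝ), (0 : ℝ)), ((0 : ℝ), (1 : ℝ))}) (t := hexagon a)
      (n := 4) (by
        intro x hx
        simp only [Finset.mem_insert, Finset.mem_singleton] at hx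
        rcases hx with rfl | rfl | rfl <;> assumption)
      (Finset.card_le_three.trans (by norm_num)) (by omega)
    refine ⟨hullArea A, ?_, A, hA, hAc, rfl⟩
    have h1 := le_hullArea (A := A) (p := ((0 : ℝ), (0 : ℝ))) (q := ((-1 : ℝ), (0 : ℝ)))
      (r := ((0 : ℝ), (1 : ℝ))) (s := ((0 : ℝ), (0 : ℝ))) (hsub (by simp)) (hsub (by simp))
      (hsub (by simp)) (hsub (by simp))
    have h2 : |cr (((-1 : ℝ), (0 : ℝ)) - ((0 : ℝ), (0 : ℝ)))
        (((0 : ℝ), (1 : ℝ)) - ((0 : ℝ), (0 : ℝ)))| = 1 := by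
      simp [cr]
    rw [h2] at h1
    linarith
  have hmin : 1 ≤ minPosArea 4 (hexagon a) := by
    apply le_csInf hne
    rintro x ⟨hx, A, hA, hAc, rfl⟩
    exact lattice_area hAc (fun x hx => (hexagon_mem (hA hx)).1) hx
  rw [div_le_iff₀ (by linarith)]
  nlinarith

theorem hexagon_not_collinear {a : ℕ} (ha : 1 ≤ a) :
    ¬ Collinear ℝ ((hexagon a : Finset (ℝ × ℝ)) : Set (ℝ × ℝ)) := by
  intro h
  have hm1 : ((-1 : ℝ), (0 : ℝ)) ∈ hexagon a := by
    unfold hexagon
    simp only [Finset.mem_union, Finset.mem_image, Finset.mem_range]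
    exact Or.inl (Or.inl ⟨0, by omega, by simp⟩)
  have hm2 : ((0 : ℝ), (0 : ℝ)) ∈ hexagon a := by
    unfold hexagon
    simp only [Finset.mem_union, Finset.mem_image, Finset.mem_range]
    exact Or.inl (Or.inr ⟨0, by omega, by simp⟩)
  have hm3 : ((0 : ℝ), (1 : ℝ)) ∈ hexagon a := by
    unfold hexagon
    simp only [Finset.mem_union, Finset.mem_image, Finset.mem_range]
    exact Or.inl (Or.inr ⟨1, by omega, by simp⟩)
  rw [collinear_iff_of_mem (p₀ := ((0 : ℝ), (0 : ℝ))) (Finset.mem_coe.2 hm2)] at h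
  obtain ⟨v, hv⟩ := h
  obtain ⟨r, hr⟩ := hv _ (Finset.mem_coe.2 hm1)
  obtain ⟨s, hs⟩ := hv _ (Finset.mem_coe.2 hm3)
  have r1 := congrArg Prod.fst hr
  have r2 := congrArg Prod.snd hr
  have s1 := congrArg Prod.fst hs
  have s2 := congrArg Prod.snd hs
  simp at r1 r2 s1 s2
  rcases s1 with s1 | s1
  · rw [s1] at s2; simp at s2
  · rw [s1] at r1; simp at r1

/-! ### the set on two lines -/

theorem twoLines_ratio {a : ℕ} (ha : 1 ≤ a) :
    (4 * a + 1 : ℝ) / 2 ≤
      maxArea 4 (twoLines (4 * a + 3)) / minPosArea 4 (twoLines (4 * a + 3)) := by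
  classical
  have ha' : (1 : ℝ) ≤ a := by exact_mod_cast ha
  have e1 : (4 * a + 3 - 1) / 2 + 1 = 2 * a + 2 := by omega
  have e2 : (4 * a + 3 - 2) / 2 + 1 = 2 * a + 1 := by omega
  have hm0 : ∀ j : ℕ, j ≤ 2 * a + 1 → ((0 : ℝ), (j : ℝ)) ∈ twoLines (4 * a + 3) := by
    intro j hj
    unfold twoLines
    rw [e1, e2]
    simp only [Finset.mem_union, Finset.mem_image, Finset.mem_range]
    exact Or.inl ⟨j, by omega, rfl⟩
  have hm1 : ∀ j : ℕ, j ≤ 2 * a → ((1 : ℝ), (j : ℝ)) ∈ twoLines (4 * a + 3) := by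
    intro j hj
    unfold twoLines
    rw [e1, e2]
    simp only [Finset.mem_union, Finset.mem_image, Finset.mem_range]
    exact Or.inr ⟨j, by omega, rfl⟩
  -- the large quadrilateral
  have hmax : (4 * a + 1 : ℝ) / 2 ≤ maxArea 4 (twoLines (4 * a + 3)) := by
    set A : Finset (ℝ × ℝ) := {((0 : ℝ), ((0 : ℕ) : ℝ)), ((0 : ℝ), ((2 * a + 1 : ℕ) : ℝ)),
      ((1 : ℝ), ((0 : ℕ) : ℝ)), ((1 : ℝ), ((2 * a : ℕ) : ℝ))} with hA
    have hAc : A.card = 4 := by
      rw [hA, Finset.card_insert_of_notMem, Finset.card_insert_of_notMem,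
        Finset.card_insert_of_notMem, Finset.card_singleton]
      · simp only [Finset.mem_singleton, Prod.mk.injEq, not_and, Nat.cast_inj]
        intro _; omega
      · simp
      · simp only [Finset.mem_insert, Finset.mem_singleton, Prod.mk.injEq, Nat.cast_inj]
        norm_num
    have hAS : A ⊆ twoLines (4 * a + 3) := by
      intro x hx
      rw [hA] at hx
      simp only [Finset.mem_insert, Finset.mem_singleton] at hx
      rcases hx with rfl | rfl | rfl | rfl
      · exact hm0 _ (by omega)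
      · exact hm0 _ (by omega)
      · exact hm1 _ (by omega)
      · exact hm1 _ (by omega)
    have h1 : hullArea A ≤ maxArea 4 (twoLines (4 * a + 3)) :=
      le_csSup (areas_finite _ _).bddAbove ⟨A, hAS, hAc, rfl⟩
    refine le_trans ?_ h1
    have h2 := le_hullArea (A := A) (p := ((0 : ℝ), ((0 : ℕ) : ℝ)))
      (q := ((1 : ℝ), ((2 * a : ℕ) : ℝ))) (r := ((0 : ℝ), ((2 * a + 1 : ℕ) : ℝ)))
      (s := ((1 : ℝ), ((0 : ℕ) : ℝ))) (by simp [hA]) (by simp [hA]) (by simp [hA]) (by simp [hA])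
    refine le_trans ?_ h2
    have h3 : cr (((1 : ℝ), ((2 * a : ℕ) : ℝ)) - ((0 : ℝ), ((0 : ℕ) : ℝ)))
        (((0 : ℝ), ((2 * a + 1 : ℕ) : ℝ)) - ((1 : ℝ), ((0 : ℕ) : ℝ))) = 4 * a + 1 := by
      simp [cr]; ring
    rw [h3]
    have := le_abs_self (4 * (a : ℝ) + 1)
    linarith
  -- the small square
  set A : Finset (ℝ × ℝ) := {((0 : ℝ), ((0 : ℕ) : ℝ)), ((0 : ℝ), ((1 : ℕ) : ℝ)),
    ((1 : ℝ), ((0 : ℕ) : ℝ)), ((1 : ℝ), ((1 : ℕ) : ℝ))} with hA
  have hAc : A.card = 4 := by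
    rw [hA, Finset.card_insert_of_notMem, Finset.card_insert_of_notMem,
      Finset.card_insert_of_notMem, Finset.card_singleton]
    · simp
    · simp
    · simp
  have hAS : A ⊆ twoLines (4 * a + 3) := by
    intro x hx
    rw [hA] at hx
    simp only [Finset.mem_insert, Finset.mem_singleton] at hx
    rcases hx with rfl | rfl | rfl | rfl
    · exact hm0 _ (by omega)
    · exact hm0 _ (by omega)
    · exact hm1 _ (by omega)
    · exact hm1 _ (by omega)
  have hA1 : hullArea A ≤ 1 := by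
    have hb : ∀ x ∈ (A : Set (ℝ × ℝ)), 0 ≤ x.1 ∧ x.1 ≤ 1 ∧ 0 ≤ x.2 ∧ x.2 ≤ 1 := by
      intro x hx
      rw [hA] at hx
      simp only [Finset.coe_insert, Finset.coe_singleton, mem_insert_iff,
        mem_singleton_iff] at hx
      rcases hx with rfl | rfl | rfl | rfl <;> norm_num
    have := hullArea_le (A := A) (M := 2) (by norm_num) hAc (by
      intro x hx y hy z hz w hw
      obtain ⟨x1, x2, x3, x4⟩ := hb x hx
      obtain ⟨y1, y2, y3, y4⟩ := hb y hy
      obtain ⟨z1, z2, z3, z4⟩ := hb z hz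
      obtain ⟨w1, w2, w3, w4⟩ := hb w hw
      have g1 : |x.1 - y.1| ≤ 1 := by rw [abs_le]; constructor <;> linarith
      have g2 : |x.2 - y.2| ≤ 1 := by rw [abs_le]; constructor <;> linarith
      have g3 : |z.1 - w.1| ≤ 1 := by rw [abs_le]; constructor <;> linarith
      have g4 : |z.2 - w.2| ≤ 1 := by rw [abs_le]; constructor <;> linarith
      have e : cr (x - y) (z - w) = (x.1 - y.1) * (z.2 - w.2) - (x.2 - y.2) * (z.1 - w.1) := by
        simp only [cr, Prod.fst_sub, Prod.snd_sub]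
      rw [e]
      have k1 : |(x.1 - y.1) * (z.2 - w.2)| ≤ 1 := by
        rw [abs_mul]; nlinarith [abs_nonneg (x.1 - y.1), abs_nonneg (z.2 - w.2)]
      have k2 : |(x.2 - y.2) * (z.1 - w.1)| ≤ 1 := by
        rw [abs_mul]; nlinarith [abs_nonneg (x.2 - y.2), abs_nonneg (z.1 - w.1)]
      have := abs_sub ((x.1 - y.1) * (z.2 - w.2)) ((x.2 - y.2) * (z.1 - w.1))
      linarith)
    linarith
  have hA0 : 0 < hullArea A := by
    have h2 := le_hullArea (A := A) (p := ((0 : ℝ), ((0 : ℕ) : ℝ)))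
      (q := ((1 : ℝ), ((0 : ℕ) : ℝ))) (r := ((0 : ℝ), ((1 : ℕ) : ℝ)))
      (s := ((0 : ℝ), ((0 : ℕ) : ℝ))) (by simp [hA]) (by simp [hA]) (by simp [hA]) (by simp [hA])
    have h3 : |cr (((1 : ℝ), ((0 : ℕ) : ℝ)) - ((0 : ℝ), ((0 : ℕ) : ℝ)))
        (((0 : ℝ), ((1 : ℕ) : ℝ)) - ((0 : ℝ), ((0 : ℕ) : ℝ)))| = 1 := by
      simp [cr]
    rw [h3] at h2
    linarith
  have hmem : hullArea A ∈
      {x : ℝ | 0 < x ∧ ∃ A ⊆ twoLines (4 * a + 3), A.card = 4 ∧ hullArea A = x} :=
    ⟨hA0, A, hAS, hAc, rfl⟩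
  have hmin1 : minPosArea 4 (twoLines (4 * a + 3)) ≤ 1 :=
    (csInf_le (posAreas_finite _ _).bddBelow hmem).trans hA1
  have hmin0 : 0 < minPosArea 4 (twoLines (4 * a + 3)) := by
    have := Set.Nonempty.csInf_mem ⟨_, hmem⟩ (posAreas_finite 4 (twoLines (4 * a + 3)))
    exact this.1
  rw [le_div_iff₀ hmin0]
  nlinarith

theorem ratio_nonneg (k : ℕ) (S : Finset (ℝ × ℝ)) : 0 ≤ maxArea k S / minPosArea k S := by
  apply div_nonneg
  · apply Real.sSup_nonneg
    rintro x ⟨A, hA, hAc, rfl⟩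
    exact ENNReal.toReal_nonneg
  · apply Real.sInf_nonneg
    rintro x ⟨hx, -⟩
    exact hx.le

/-- **The conjecture fails for `k = 4`.** For all `n ≡ 3 (mod 4)`, `n ≥ 7`, the `n` lattice
points of a suitable affinely regular hexagon have a ratio `T_4/t_4` which is at most `(n-3)/2`,
whereas the ratio of the set `S_n` on two lines is at least `(n-2)/2`; so `f(4,n)` is not attained
by `S_n`. -/
theorem result :
    (∀ n : ℕ, 7 ≤ n → n % 4 = 3 →
      (∃ S : Finset (ℝ × ℝ), S.card = n ∧ ¬ Collinear ℝ (S : Set (ℝ × ℝ)) ∧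
        maxArea 4 S / minPosArea 4 S ≤ ((n : ℝ) - 3) / 2) ∧
      ((n : ℝ) - 2) / 2 ≤ maxArea 4 (twoLines n) / minPosArea 4 (twoLines n) ∧
      f 4 n < maxArea 4 (twoLines n) / minPosArea 4 (twoLines n)) ∧
    ¬ (∀ k : ℕ, 4 ≤ k → ∃ N : ℕ, ∀ n : ℕ, N ≤ n →
      f k n = maxArea k (twoLines n) / minPosArea k (twoLines n)) := by
  have main : ∀ n : ℕ, 7 ≤ n → n % 4 = 3 →
      (∃ S : Finset (ℝ × ℝ), S.card = n ∧ ¬ Collinear ℝ (S : Set (ℝ × ℝ)) ∧
        maxArea 4 S / minPosArea 4 S ≤ ((n : ℝ) - 3) / 2) ∧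
      ((n : ℝ) - 2) / 2 ≤ maxArea 4 (twoLines n) / minPosArea 4 (twoLines n) ∧
      f 4 n < maxArea 4 (twoLines n) / minPosArea 4 (twoLines n) := by
    intro n hn hn4
    obtain ⟨a, ha, rfl⟩ : ∃ a : ℕ, 1 ≤ a ∧ n = 4 * a + 3 := ⟨n / 4, by omega, by omega⟩
    have h1 := hexagon_ratio ha
    have h2 := twoLines_ratio ha
    have h3 : maxArea 4 (hexagon a) / minPosArea 4 (hexagon a) ≤
        (((4 * a + 3 : ℕ) : ℝ) - 3) / 2 := by
      push_cast; linarith
    have h4 : (((4 * a + 3 : ℕ) : ℝ) - 2) / 2 ≤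
        maxArea 4 (twoLines (4 * a + 3)) / minPosArea 4 (twoLines (4 * a + 3)) := by
      push_cast; linarith
    refine ⟨⟨hexagon a, hexagon_card a, hexagon_not_collinear ha, h3⟩, h4, ?_⟩
    have h5 : f 4 (4 * a + 3) ≤ maxArea 4 (hexagon a) / minPosArea 4 (hexagon a) := by
      apply csInf_le
      · refine ⟨0, ?_⟩
        rintro x ⟨S, -, -, rfl⟩
        exact ratio_nonneg 4 S
      · exact ⟨hexagon a, hexagon_card a, hexagon_not_collinear ha, rfl⟩
    linarith
  refine ⟨main, ?_⟩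
  intro h
  obtain ⟨N, hN⟩ := h 4 le_rfl
  have h1 := hN (4 * (N + 1) + 3) (by omega)
  exact absurd h1 (main (4 * (N + 1) + 3) (by omega) (by omega)).2.2.ne

end Pool.Agent.Results.MP_ee40c7_co.FourPointHulls
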